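import Pool.Agent.EGF.StmtsS

/-!
# EGF, block S, row HIG (helper65): few high pairs
-/

set_option autoImplicit false

open Finset

namespace Pool.Agent.EGF.H65

open Pool.Agent.EGF

theorem cnt1 {X Y : Type} [DecidableEq X] [DecidableEq Y] (A : Finset X) (B : Finset Y)
    (F : Finset (X × Y)) :
    ((A ×ˢ B) ∩ F).card = ∑ b ∈ B, (A.filter fun a => (a, b) ∈ F).card := by
  rw [← Finset.filter_mem_eq_inter, Finset.card_filter, Finset.sum_product_right]
  refine Finset.sum_congr rfl (fun b _ => ?_)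
  rw [Finset.card_filter]

theorem cnt2 {X Y : Type} [DecidableEq X] [DecidableEq Y] (A : Finset X) (B : Finset Y)
    (F : Finset (X × Y)) :
    ((A ×ˢ B) ∩ F).card = ∑ a ∈ A, (B.filter fun b => (a, b) ∈ F).card := by
  rw [← Finset.filter_mem_eq_inter, Finset.card_filter, Finset.sum_product]
  refine Finset.sum_congr rfl (fun b _ => ?_)
  rw [Finset.card_filter]

theorem few {Z : Type} (B : Finset Z) (g : Z → ℝ) (d T0 : ℝ) (hT : 0 < T0)
    (h : ∀ B' ⊆ B, T0 ≤ (B'.card : ℝ) → ∑ b ∈ B', g b ≤ d * B'.card) :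
    ((B.filter fun b => d < g b).card : ℝ) < T0 := by
  by_contra hcon
  push Not at hcon
  have h1 := h _ (Finset.filter_subset _ _) hcon
  have hne : (B.filter fun b => d < g b).Nonempty := by
    rw [← Finset.card_pos]
    have h0 : (0 : ℝ) < ((B.filter fun b => d < g b).card : ℝ) := hT.trans_le hcon
    exact_mod_cast h0
  have h2 : ∑ b ∈ B.filter (fun b => d < g b), d < ∑ b ∈ B.filter (fun b => d < g b), g b :=
    Finset.sum_lt_sum_of_nonempty hne (fun b hb => (Finset.mem_filter.1 hb).2)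
  rw [Finset.sum_const, nsmul_eq_mul] at h2
  linarith

theorem onerow {Z : Type} (B : Finset Z) (g : Z → ℝ) (d T0 : ℝ) (n : ℕ) (y : ℕ → Z)
    (hy : ∀ j < n, y j ∈ B) (hinj : ∀ i < n, ∀ j < n, y i = y j → i = j)
    (hfew : ((B.filter fun b => d < g b).card : ℝ) < T0) :
    (((range n).filter fun j => d < g (y j)).card : ℝ) ≤ T0 := by
  have h1 : ((range n).filter fun j => d < g (y j)).card ≤ (B.filter fun b => d < g b).card := by
    refine Finset.card_le_card_of_injOn y ?_ ?_
    · intro j hj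
      have hj' := Finset.mem_filter.1 (Finset.mem_coe.1 hj)
      exact Finset.mem_coe.2 (Finset.mem_filter.2 ⟨hy j (Finset.mem_range.1 hj'.1), hj'.2⟩)
    · intro i hi j hj hij
      have hi' := Finset.mem_filter.1 (Finset.mem_coe.1 hi)
      have hj' := Finset.mem_filter.1 (Finset.mem_coe.1 hj)
      exact hinj i (Finset.mem_range.1 hi'.1) j (Finset.mem_range.1 hj'.1) hij
  have h2 : (((range n).filter fun j => d < g (y j)).card : ℝ) ≤
      ((B.filter fun b => d < g b).card : ℝ) := by exact_mod_cast h1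
  exact h2.trans hfew.le

theorem pairs1 {Z : Type} (B : Finset Z) (G : ℕ → Z → ℝ) (d T0 ι : ℝ) (m n : ℕ) (y : ℕ → Z)
    (hy : ∀ j < n, y j ∈ B) (hinj : ∀ i < n, ∀ j < n, y i = y j → i = j)
    (hfew : ∀ i < m, ((B.filter fun b => d < G i b).card : ℝ) < T0) (hT : T0 ≤ ι * n) :
    (((range m ×ˢ range n).filter fun p => d < G p.1 (y p.2)).card : ℝ) ≤ ι * (m * n) := by
  have h1 : ((range m ×ˢ range n).filter fun p => d < G p.1 (y p.2)).card =
      ∑ i ∈ range m, ((range n).filter fun j => d < G i (y j)).card := by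
    rw [Finset.card_filter, Finset.sum_product]
    refine Finset.sum_congr rfl (fun b _ => ?_)
    rw [Finset.card_filter]
  rw [h1]
  push_cast
  calc ∑ i ∈ range m, (((range n).filter fun j => d < G i (y j)).card : ℝ)
      ≤ ∑ i ∈ range m, ι * (n : ℝ) := Finset.sum_le_sum (fun i hi =>
        (onerow B (G i) d T0 n y hy hinj (hfew i (Finset.mem_range.1 hi))).trans hT)
    _ = ι * (m * n) := by
      rw [Finset.sum_const, Finset.card_range, nsmul_eq_mul]
      ring

theorem pairs2 {Z : Type} (A : Finset Z) (G : ℕ → Z → ℝ) (d T0 ι : ℝ) (m n : ℕ) (x : ℕ → Z)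
    (hx : ∀ j < m, x j ∈ A) (hinj : ∀ i < m, ∀ j < m, x i = x j → i = j)
    (hfew : ∀ j < n, ((A.filter fun b => d < G j b).card : ℝ) < T0) (hT : T0 ≤ ι * m) :
    (((range m ×ˢ range n).filter fun p => d < G p.2 (x p.1)).card : ℝ) ≤ ι * (m * n) := by
  have h1 : ((range m ×ˢ range n).filter fun p => d < G p.2 (x p.1)).card =
      ∑ j ∈ range n, ((range m).filter fun i => d < G j (x i)).card := by
    rw [Finset.card_filter, Finset.sum_product_right]
    refine Finset.sum_congr rfl (fun b _ => ?_)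
    rw [Finset.card_filter]
  rw [h1]
  push_cast
  calc ∑ j ∈ range n, (((range m).filter fun i => d < G j (x i)).card : ℝ)
      ≤ ∑ j ∈ range n, ι * (m : ℝ) := Finset.sum_le_sum (fun j hj =>
        (onerow A (G j) d T0 m x hx hinj (hfew j (Finset.mem_range.1 hj))).trans hT)
    _ = ι * (m * n) := by
      rw [Finset.sum_const, Finset.card_range, nsmul_eq_mul]
      ring

theorem hig : HigStmt := by
  intro X Y _ _ A B F M ι κ T T0 m n x y W Z hι hι1 hM hT0 hT0T hm hn hS hW hZ
  have hT : 0 < T := by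
    by_contra h
    push Not at h
    have h1 : ι * T ≤ 0 := mul_nonpos_of_nonneg_of_nonpos hι.le h
    linarith
  have hT0T' : T0 ≤ T := hT0T.trans (by nlinarith)
  constructor
  · refine pairs1 B (fun i b => (((W i).filter fun w => (w, b) ∈ F).card : ℝ) / (W i).card)
      (M + ι) T0 ι m n y hZ.xA hZ.inj ?_ hn
    intro i hi
    have hWi : T0 ≤ ((W i).card : ℝ) := hT0T'.trans (hW.TW i hi)
    have hWp : (0 : ℝ) < ((W i).card : ℝ) := hT0.trans_le hWi
    refine few B _ (M + ι) T0 hT0 ?_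
    intro B' hB' hB'T
    have h1 := hS (W i) (hW.WA i hi) B' hB' hWi hB'T
    rw [cnt1] at h1
    push_cast at h1
    rw [← Finset.sum_div, div_le_iff₀ hWp]
    linarith
  · refine pairs2 A (fun j a => (((Z j).filter fun z => (a, z) ∈ F).card : ℝ) / (Z j).card)
      (M + ι) T0 ι m n x hW.xA hW.inj ?_ hm
    intro j hj
    have hZj : T0 ≤ ((Z j).card : ℝ) := hT0T'.trans (hZ.TW j hj)
    have hZp : (0 : ℝ) < ((Z j).card : ℝ) := hT0.trans_le hZj
    refine few A _ (M + ι) T0 hT0 ?_
    intro A' hA' hA'T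
    have h1 := hS A' hA' (Z j) (hZ.WA j hj) hA'T hZj
    rw [cnt2] at h1
    push_cast at h1
    rw [← Finset.sum_div, div_le_iff₀ hZp]
    linarith

end Pool.Agent.EGF.H65
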